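import Mathlib
import Pool.Agent.Lib.MP_0170ef_an_Turn.Main

namespace Pool.Agent.Results.MP_0170ef_an.TwoLowestCurves

open Set Filter Topology

/-- `b` is the first zero `T(α)`: there is a solution `v` of `v'' + (2/t) v' + v^4 + v^7 = 0` on
`(0, b)` with `v(0) = α`, `v'(0) = 0`, positive on `[0, b)`, with `v(b) = 0`. -/
def FirstZero (α b : ℝ) : Prop :=
  0 < b ∧ ∃ v : ℝ → ℝ, ContinuousOn v (Icc 0 b) ∧ v 0 = α ∧ Tendsto (deriv v) (𝓝[>] 0) (𝓝 0) ∧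
    (∀ t ∈ Ico 0 b, 0 < v t) ∧ v b = 0 ∧
    ∀ t ∈ Ioo 0 b, DifferentiableAt ℝ v t ∧ DifferentiableAt ℝ (deriv v) t ∧
      deriv (deriv v) t + 2 / t * deriv v t + (v t ^ 4 + v t ^ 7) = 0

/-- The set `A` of all `α > 0` with `T(α) < ∞`. -/
def A : Set ℝ := {α | 0 < α ∧ ∃ b, FirstZero α b}

/-- The first zero `T(α)` (for `α` in `A`). -/
noncomputable def T (α : ℝ) : ℝ := sInf {b | FirstZero α b}

/-- `Λ(α) = T(α)^2`. -/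
noncomputable def Lam (α : ℝ) : ℝ := T α ^ 2

/-- There is a solution `u` of `u'' + (2/r) u' + l (u^4 + u^7) = 0` on `[0, 1]`, twice continuously
differentiable, with `u'(0) = u(1) = 0`, `u > 0` on `[0, 1)`, `u(0) = a` (and `l > 0`). -/
def Solvable (l a : ℝ) : Prop :=
  0 < l ∧ ∃ u : ℝ → ℝ, ∃ ε : ℝ, 0 < ε ∧
    ContDiffOn ℝ 2 u (Set.Ioo (-ε) (1 + ε)) ∧
    u 0 = a ∧ deriv u 0 = 0 ∧ u 1 = 0 ∧
    (∀ r ∈ Set.Ico (0:ℝ) 1, 0 < u r) ∧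
    ∀ r ∈ Set.Ioc (0:ℝ) 1,
      deriv (deriv u) r + 2 / r * deriv u r + l * (u r ^ 4 + u r ^ 7) = 0

/-- `v` is a positive solution on all of `[0, ∞)` with `v(0) = α`, `v'(0) = 0`. -/
def GlobalPositive (α : ℝ) (v : ℝ → ℝ) : Prop :=
  ContDiff ℝ 2 v ∧ v 0 = α ∧ deriv v 0 = 0 ∧ (∀ t, 0 ≤ t → 0 < v t) ∧
    ∀ t, 0 < t → deriv (deriv v) t + 2 / t * deriv v t + (v t ^ 4 + v t ^ 7) = 0

/-- **The two lowest solution curves.** `(0, α₁)` and `(α₁, α₂)` are the two lowest components of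
`A`; on each of them `Λ` is first strictly decreasing and then strictly increasing, with turning
points `t₁` and `t₂`; `Λ` tends to infinity at all ends of the two intervals; `α₁` and `α₂` belong
to positive solutions on `[0, ∞)`; and the boundary value problem has a solution with `u(0) = a`,
`a ≤ α₂`, exactly if `a` is in `A` and the parameter is `Λ(a)`. -/
theorem result : ∃ t₁ α₁ t₂ α₂ : ℝ,
    (0.79 ≤ t₁ ∧ t₁ ≤ 1.05 ∧ 1.5262 < α₁ ∧ α₁ < 1.5395 ∧ 1.6524 ≤ t₂ ∧ t₂ ≤ 1.705 ∧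
      1.8309 < α₂ ∧ α₂ < 1.8571) ∧
    (A ∩ Iic α₂ = Ioo 0 α₁ ∪ Ioo α₁ α₂) ∧
    (∀ x ∈ Ioo 0 α₁, connectedComponentIn A x = Ioo 0 α₁) ∧
    (∀ x ∈ Ioo α₁ α₂, connectedComponentIn A x = Ioo α₁ α₂) ∧
    (∀ α ∈ Ioo 0 α₁ ∪ Ioo α₁ α₂, ∀ b, FirstZero α b ↔ b = T α) ∧
    StrictAntiOn Lam (Ioc 0 t₁) ∧ StrictMonoOn Lam (Ico t₁ α₁) ∧
    StrictAntiOn Lam (Ioc α₁ t₂) ∧ StrictMonoOn Lam (Ico t₂ α₂) ∧
    Tendsto Lam (𝓝[>] 0) atTop ∧ Tendsto Lam (𝓝[<] α₁) atTop ∧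
    Tendsto Lam (𝓝[>] α₁) atTop ∧ Tendsto Lam (𝓝[<] α₂) atTop ∧
    (∀ α ∈ ({α₁, α₂} : Set ℝ), ∃ v : ℝ → ℝ, GlobalPositive α v) ∧
    (∀ l a : ℝ, a ≤ α₂ → (Solvable l a ↔ a ∈ A ∧ l = Lam a)) :=
  LinNi.H20.full

end Pool.Agent.Results.MP_0170ef_an.TwoLowestCurves
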